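import Pool.Agent.H43.G.R_seed8.H379R2.SW4
import Pool.Agent.H43.G.R_seed8.H410R2.Iface

/-!
Siegel–Walfisz (log-weighted) from Siegel's theorem.
-/

set_option autoImplicit false

open MeasureTheory Complex Filter Topology Set
open scoped Real

namespace Pool.Agent.H379R2.SW

/-- `J = ∫ (1+|ξ|)^{-3/2}` -/
lemma integrable_J : Integrable (fun ξ : ℝ => (1 + |ξ|) ^ (-(3 / 2 : ℝ))) := by
  have h := integrable_one_add_norm (E := ℝ) (μ := volume) (r := 3 / 2) (by simp; norm_num)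
  simpa [Real.norm_eq_abs] using h

lemma weight_le {θ : ℝ} (hθ : 0 < θ) (hθ2 : θ ≤ 1 / 2) {c : ℝ} (hc : 1 ≤ c) (ξ : ℝ) {Q : ℝ}
    (hQ : 1 ≤ Q) :
    (Q * (2 * |2 * π * ξ| + 6)) ^ θ * (‖vert c ξ‖ ^ 2)⁻¹ ≤
      Q ^ θ * (8 * (1 + |ξ|) ^ (-(3 / 2 : ℝ))) := by
  have h0 : 0 ≤ |ξ| := abs_nonneg ξ
  have h1 : 2 * |2 * π * ξ| + 6 ≤ 16 * (1 + |ξ|) := by
    rw [abs_mul, abs_mul, abs_two, abs_of_pos Real.pi_pos]
    have := Real.pi_lt_four
    nlinarith
  have h2 : (2 * |2 * π * ξ| + 6) ^ θ ≤ 4 * (1 + |ξ|) ^ (1 / 2 : ℝ) := by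
    have h6 : (1 : ℝ) ≤ 2 * |2 * π * ξ| + 6 := by
      have := abs_nonneg (2 * π * ξ)
      linarith
    calc (2 * |2 * π * ξ| + 6) ^ θ ≤ (2 * |2 * π * ξ| + 6) ^ (1 / 2 : ℝ) :=
          Real.rpow_le_rpow_of_exponent_le h6 hθ2
      _ ≤ (16 * (1 + |ξ|)) ^ (1 / 2 : ℝ) := Real.rpow_le_rpow (by linarith) h1 (by norm_num)
      _ = 4 * (1 + |ξ|) ^ (1 / 2 : ℝ) := by
          rw [Real.mul_rpow (by norm_num) (by linarith)]
          congr 1
          rw [show (16 : ℝ) = 4 ^ (2 : ℝ) by norm_num, ← Real.rpow_mul (by norm_num)]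
          norm_num
  have h3 : (‖vert c ξ‖ ^ 2)⁻¹ ≤ 2 * (1 + |ξ|) ^ (-(2 : ℝ)) := by
    refine (inv_norm_vert_sq_le hc ξ).trans ?_
    rw [Real.rpow_neg (by linarith), Real.rpow_two, ← div_eq_mul_inv, inv_eq_one_div,
      div_le_div_iff₀ (by positivity) (by positivity)]
    have : ξ ^ 2 = |ξ| ^ 2 := (sq_abs ξ).symm
    rw [this]
    nlinarith [sq_nonneg (1 - |ξ|)]
  rw [Real.mul_rpow (by linarith) (by positivity), mul_assoc]
  apply mul_le_mul_of_nonneg_left _ (by positivity)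
  calc (2 * |2 * π * ξ| + 6) ^ θ * (‖vert c ξ‖ ^ 2)⁻¹ ≤
        (4 * (1 + |ξ|) ^ (1 / 2 : ℝ)) * (2 * (1 + |ξ|) ^ (-(2 : ℝ))) :=
        mul_le_mul h2 h3 (by positivity) (by positivity)
    _ = 8 * ((1 + |ξ|) ^ (1 / 2 : ℝ) * (1 + |ξ|) ^ (-(2 : ℝ))) := by ring
    _ = 8 * (1 + |ξ|) ^ (-(3 / 2 : ℝ)) := by
        rw [← Real.rpow_add (by linarith)]
        norm_num

/-- The main estimate: for a nonprincipal character, given a lower bound at `1` for quadratic
characters. -/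
theorem psiLog_bound (k : ℕ) {θ : ℝ} (hθ : 0 < θ) (hθ2 : θ ≤ 1 / 2) {c₁ : ℝ} (hc₁ : 0 < c₁)
    (hc₁1 : c₁ ≤ 1) : ∃ C : ℝ, 0 < C ∧ ∀ (q : ℕ) [NeZero q] (χ : DirichletCharacter ℂ q), χ ≠ 1 →
      (χ ^ 2 = 1 → c₁ * (q : ℝ) ^ (-(θ / (17 * (k + 1)))) ≤ ‖χ.LFunction 1‖) →
      ∀ x : ℝ, Real.exp 1 ≤ x →
        ‖Pool.Agent.H410R2.psiLog x q χ‖ ≤ C * x * (q : ℝ) ^ θ / (Real.log x) ^ k := by
  set η : ℝ := θ / (17 * (k + 1)) with hη
  have hk1 : (1 : ℝ) ≤ (k : ℝ) + 1 := by linarith [Nat.cast_nonneg (α := ℝ) k]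
  have hη0 : 0 < η := by positivity
  have hη2 : η < 1 / 2 := by
    rw [hη, div_lt_iff₀ (by positivity)]
    nlinarith
  set CQ : ℝ := 17280 * ((9 + 1 / η) / η) ^ 8 / c₁ with hCQ
  have hCQ0 : 0 < CQ := by positivity
  have hCQ1 : 1 ≤ CQ := by
    rw [hCQ, le_div_iff₀ hc₁]
    have h1 : 1 ≤ (9 + 1 / η) / η := by
      rw [le_div_iff₀ hη0]
      have : 0 < 1 / η := by positivity
      nlinarith
    have h2 : 1 ≤ ((9 + 1 / η) / η) ^ 8 := one_le_pow₀ h1
    nlinarith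
  set J : ℝ := ∫ ξ : ℝ, (1 + |ξ|) ^ (-(3 / 2 : ℝ)) with hJ
  have hJ0 : 0 ≤ J := integral_nonneg (fun ξ => by positivity)
  refine ⟨Real.exp 1 * (k.factorial * 4 * CQ ^ (k + 1) * 8 * (J + 1)), by positivity, ?_⟩
  intro q _ χ hχ hS x hx
  have hx0 : 0 < x := lt_of_lt_of_le (Real.exp_pos 1) hx
  have hlog : 1 ≤ Real.log x := by
    rw [Real.le_log_iff_exp_le hx0]; exact hx
  have hlog0 : 0 < Real.log x := by linarith
  have hx1 : 1 ≤ x := by
    have := Real.add_one_le_exp 1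
    linarith
  have hq : (1 : ℝ) ≤ q := by exact_mod_cast NeZero.one_le
  set c : ℝ := 1 + 1 / Real.log x with hc
  have hc1 : 1 < c := by
    have : 0 < 1 / Real.log x := by positivity
    linarith
  have hc2 : c ≤ 2 := by
    have : 1 / Real.log x ≤ 1 := by
      rw [div_le_one hlog0]; exact hlog
    linarith
  set a : ℕ → ℂ := (fun n : ℕ => χ (n : ZMod q)) *
    (fun n : ℕ => ((ArithmeticFunction.vonMangoldt n : ℝ) : ℂ)) with ha
  have hsum : LSeriesSummable a (c : ℂ) :=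
    DirichletCharacter.LSeriesSummable_twist_vonMangoldt χ (by simpa using hc1)
  have hpsi : Pool.Agent.H410R2.psiLog x q χ =
      ∑ n ∈ Finset.Icc 1 ⌊x⌋₊, a n * ((Real.log (x / n) : ℝ) : ℂ) := by
    unfold Pool.Agent.H410R2.psiLog
    apply Finset.sum_congr rfl
    intro n _
    simp only [ha, Pi.mul_apply]
    ring
  rw [hpsi, perron_sum a hc1.le hsum hx1, norm_mul, Complex.norm_real,
    Real.norm_of_nonneg (Real.exp_pos _).le]
  have hLf : ∀ ξ : ℝ, LSeries a (vert c ξ) / (vert c ξ) ^ 2 = fL χ (vert c ξ) := by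
    intro ξ
    have h1 : 1 < (vert c ξ).re := by rw [vert_re]; exact hc1
    unfold fL
    rw [ha, DirichletCharacter.LSeries_twist_vonMangoldt_eq χ h1,
      DirichletCharacter.deriv_LFunction_eq_deriv_LSeries χ h1,
      DirichletCharacter.LFunction_eq_LSeries χ h1]
  simp only [hLf]
  -- pointwise bounds
  have hpt : ∀ j ≤ k, ∀ ξ : ℝ, ‖iteratedDeriv j (fL χ) (vert c ξ)‖ ≤
      k.factorial * 4 * CQ ^ (k + 1) * 8 * (q : ℝ) ^ θ * (1 + |ξ|) ^ (-(3 / 2 : ℝ)) := by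
    intro j hj ξ
    refine (fL_bound hχ hc₁ hc₁1 hη0 hη2 hS hc1 hc2 ξ j).trans ?_
    rw [← hCQ]
    set Y : ℝ := q * (2 * |2 * π * ξ| + 6) with hY
    have hY1 : 1 ≤ Y := by
      have := abs_nonneg (2 * π * ξ)
      rw [hY]; nlinarith
    have hYη : 1 ≤ Y ^ (17 * η) := Real.one_le_rpow hY1 (by positivity)
    have h1 : (CQ * Y ^ (17 * η)) ^ (j + 1) ≤ CQ ^ (k + 1) * Y ^ θ := by
      calc (CQ * Y ^ (17 * η)) ^ (j + 1) ≤ (CQ * Y ^ (17 * η)) ^ (k + 1) := by
            apply pow_le_pow_right₀ _ (by omega)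
            nlinarith
        _ = CQ ^ (k + 1) * Y ^ θ := by
            rw [mul_pow, ← Real.rpow_natCast (Y ^ (17 * η)), ← Real.rpow_mul (by linarith)]
            congr 2
            rw [hη]
            push_cast
            field_simp
    have h2 := weight_le hθ hθ2 hc1.le ξ hq
    rw [← hY] at h2
    have h3 : (j.factorial : ℝ) ≤ k.factorial := by
      exact_mod_cast Nat.factorial_le hj
    calc (j.factorial : ℝ) * 4 * (CQ * Y ^ (17 * η)) ^ (j + 1) * (‖vert c ξ‖ ^ 2)⁻¹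
        ≤ (k.factorial : ℝ) * 4 * (CQ ^ (k + 1) * Y ^ θ) * (‖vert c ξ‖ ^ 2)⁻¹ := by
          apply mul_le_mul_of_nonneg_right _ (by positivity)
          apply mul_le_mul _ h1 (by positivity) (by positivity)
          exact mul_le_mul_of_nonneg_right h3 (by norm_num)
      _ = (k.factorial : ℝ) * 4 * CQ ^ (k + 1) * (Y ^ θ * (‖vert c ξ‖ ^ 2)⁻¹) := by ring
      _ ≤ (k.factorial : ℝ) * 4 * CQ ^ (k + 1) *
            ((q : ℝ) ^ θ * (8 * (1 + |ξ|) ^ (-(3 / 2 : ℝ)))) :=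
          mul_le_mul_of_nonneg_left h2 (by positivity)
      _ = _ := by ring
  have hmem : ∀ ξ, vert c ξ ∈ {z : ℂ | 1 < z.re} := by
    intro ξ
    show 1 < (vert c ξ).re
    rw [vert_re]; exact hc1
  have hint : ∀ j ≤ k, Integrable (fun ξ => iteratedDeriv j (fL χ) (vert c ξ)) := by
    intro j hj
    refine Integrable.mono' (integrable_J.const_mul
      (k.factorial * 4 * CQ ^ (k + 1) * 8 * (q : ℝ) ^ θ)) ?_ (Eventually.of_forall (hpt j hj))
    apply Continuous.aestronglyMeasurable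
    rw [iteratedDeriv_eq_iterate, continuous_iff_continuousAt]
    intro ξ
    exact ContinuousAt.comp ((fL_analytic hχ _ (hmem ξ)).iterated_deriv j).continuousAt
      (continuous_vert c).continuousAt
  rw [int_by_parts (fL_analytic hχ) hc1 hlog0 k hint]
  have hI : ‖∫ ξ : ℝ, iteratedDeriv k (fL χ) (vert c ξ) *
        cexp (((2 * π * ξ * Real.log x : ℝ) : ℂ) * I)‖ ≤
      k.factorial * 4 * CQ ^ (k + 1) * 8 * (q : ℝ) ^ θ * J := by
    rw [hJ, ← integral_const_mul]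
    apply norm_integral_le_of_norm_le (integrable_J.const_mul _)
    refine Eventually.of_forall (fun ξ => ?_)
    rw [norm_mul, Complex.norm_exp_ofReal_mul_I, mul_one]
    exact hpt k le_rfl ξ
  have hexp : Real.exp (c * Real.log x) = Real.exp 1 * x := by
    have h1 : c * Real.log x = 1 + Real.log x := by
      rw [hc]; field_simp; ring
    rw [h1, Real.exp_add, Real.exp_log hx0]
  rw [hexp]
  calc Real.exp 1 * x * (1 / Real.log x ^ k * ‖∫ ξ : ℝ, iteratedDeriv k (fL χ) (vert c ξ) *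
        cexp (((2 * π * ξ * Real.log x : ℝ) : ℂ) * I)‖)
      ≤ Real.exp 1 * x * (1 / Real.log x ^ k *
          (k.factorial * 4 * CQ ^ (k + 1) * 8 * (q : ℝ) ^ θ * (J + 1))) := by
        apply mul_le_mul_of_nonneg_left _ (by positivity)
        apply mul_le_mul_of_nonneg_left _ (by positivity)
        refine hI.trans ?_
        apply mul_le_mul_of_nonneg_left _ (by positivity)
        linarith
    _ = _ := by ring

/-- A3: Siegel–Walfisz from Siegel's theorem. -/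
theorem siegelWalfisz (h2 : Pool.Agent.H410R2.Siegel) : Pool.Agent.H410R2.SiegelWalfisz := by
  intro A B
  set θ : ℝ := 1 / (2 * ((B : ℝ) + 1)) with hθ
  have hB0 : (0 : ℝ) ≤ B := Nat.cast_nonneg B
  have hθ0 : 0 < θ := by positivity
  have hθ2 : θ ≤ 1 / 2 := by
    rw [hθ]
    apply one_div_le_one_div_of_le (by norm_num)
    linarith
  set η : ℝ := θ / (17 * (((A + 1 : ℕ) : ℝ) + 1)) with hη
  have hη0 : 0 < η := by positivity
  obtain ⟨c₀, hc₀, hS⟩ := h2 η hη0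
  obtain ⟨C, hC, hmain⟩ := psiLog_bound (A + 1) hθ0 hθ2 (c₁ := min c₀ 1)
    (lt_min hc₀ one_pos) (min_le_right _ _)
  refine ⟨Real.exp (C ^ 2 + 1), ?_⟩
  intro x hx q hq hqB χ hχ
  have : NeZero q := ⟨by omega⟩
  have hx0 : 0 < x := lt_of_lt_of_le (Real.exp_pos _) hx
  have hlog : C ^ 2 + 1 ≤ Real.log x := by
    rw [Real.le_log_iff_exp_le hx0]; exact hx
  have hlog1 : 1 ≤ Real.log x := by nlinarith [sq_nonneg C]
  have hlog0 : 0 < Real.log x := by linarith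
  have hxe : Real.exp 1 ≤ x := by
    rw [← Real.le_log_iff_exp_le hx0]; exact hlog1
  have hχ1 : χ ≠ 1 := by
    rintro rfl
    have h1 : DirichletCharacter.conductor (1 : DirichletCharacter ℂ q) = q := hχ
    rw [DirichletCharacter.conductor_one] at h1
    omega
  have hq1 : (1 : ℝ) ≤ q := by exact_mod_cast (by omega : 1 ≤ q)
  have h := hmain q χ hχ1 (fun hsq => by
    refine le_trans ?_ (hS q χ hχ hsq hχ1)
    apply mul_le_mul_of_nonneg_right (min_le_left _ _)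
    positivity) x hxe
  refine h.trans ?_
  have hqθ : (q : ℝ) ^ θ ≤ (Real.log x) ^ (1 / 2 : ℝ) := by
    calc (q : ℝ) ^ θ ≤ ((Real.log x) ^ B) ^ θ := Real.rpow_le_rpow (by linarith) hqB hθ0.le
      _ = (Real.log x) ^ (B * θ) := by
          rw [← Real.rpow_natCast, ← Real.rpow_mul hlog0.le]
      _ ≤ (Real.log x) ^ (1 / 2 : ℝ) := by
          apply Real.rpow_le_rpow_of_exponent_le hlog1
          rw [hθ, mul_one_div, div_le_div_iff₀ (by positivity) (by norm_num)]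
          linarith
  have hCl : C * (Real.log x) ^ (1 / 2 : ℝ) ≤ Real.log x := by
    have h1 : C ≤ (Real.log x) ^ (1 / 2 : ℝ) := by
      rw [← Real.sqrt_eq_rpow]
      apply Real.le_sqrt_of_sq_le
      linarith
    calc C * (Real.log x) ^ (1 / 2 : ℝ) ≤ (Real.log x) ^ (1 / 2 : ℝ) * (Real.log x) ^ (1 / 2 : ℝ) :=
          mul_le_mul_of_nonneg_right h1 (by positivity)
      _ = Real.log x := by
          rw [← Real.rpow_add hlog0]; norm_num
  rw [div_le_div_iff₀ (by positivity) (by positivity)]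
  calc C * x * (q : ℝ) ^ θ * Real.log x ^ A ≤ C * x * (Real.log x) ^ (1 / 2 : ℝ) *
        Real.log x ^ A := by
        apply mul_le_mul_of_nonneg_right _ (by positivity)
        exact mul_le_mul_of_nonneg_left hqθ (by positivity)
    _ = x * (C * (Real.log x) ^ (1 / 2 : ℝ)) * Real.log x ^ A := by ring
    _ ≤ x * Real.log x * Real.log x ^ A := by
        apply mul_le_mul_of_nonneg_right _ (by positivity)
        exact mul_le_mul_of_nonneg_left hCl hx0.le
    _ = x * Real.log x ^ (A + 1) := by ring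

end Pool.Agent.H379R2.SW
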